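import Pool.Agent.Helper73.RF.GoalsF

/-!
# Project RF, packet DIA: upper diameter bound
-/

set_option autoImplicit false

open Finset Pool.Agent.Helper47.RF Pool.Agent.Helper73.RF

namespace Pool.Agent.Helper29.RF

theorem smFam_mono {I J : Set ℝ} (h : J ⊆ I) {f : ℝ → HH → ℝ} (hf : SmFam I f) : SmFam J f :=
  ⟨fun t ht => hf.sm t (h ht), fun w => (hf.cont w).mono (Set.prod_mono h subset_rfl)⟩

theorem smFam1_mono {I J : Set ℝ} (h : J ⊆ I) {f f' : ℝ → HH → ℝ} (hf : SmFam1 I f f') :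
    SmFam1 J f f' :=
  ⟨smFam_mono h hf.fam, smFam_mono h hf.fam', fun w x hx t ht => (hf.der w x hx t (h ht)).mono h⟩

theorem fflow_mono {I J : Set ℝ} (h : J ⊆ I) {A θ : ℝ → MF} (hf : FFlow I A θ) : FFlow J A θ :=
  ⟨fun t ht => hf.inv t (h ht), fun a i => smFam1_mono h (hf.flA a i),
    fun i a => smFam1_mono h (hf.flt i a)⟩

theorem fflow_frm {I : Set ℝ} {A θ : ℝ → MF} (hf : FFlow I A θ) {t : ℝ} (ht : t ∈ I) :
    Frm (A t) (θ t) :=
  ⟨hf.inv t ht, fun a i => (hf.flA a i).fam.sm t ht, fun i a => (hf.flt i a).fam.sm t ht⟩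

theorem E_congr {f g : HH → ℝ} (h : ∀ x, x ≠ 0 → f x = g x) (i : Fin 3) {x : HH} (hx : x ≠ 0) :
    E i f x = E i g x := by
  unfold E
  have : f =ᶠ[nhds x] g := by
    filter_upwards [isOpen_compl_singleton.mem_nhds (show x ∈ ({0}ᶜ : Set HH) from hx)] with y hy
    exact h y hy
  rw [this.fderiv_eq]

theorem ggC_congr {g : MF} {f h : HH → ℝ} (hfh : ∀ x, x ≠ 0 → f x = h x) {x : HH} (hx : x ≠ 0) :
    ggC g f f x = ggC g h h x := by
  unfold ggC
  refine Finset.sum_congr rfl fun i _ => Finset.sum_congr rfl fun j _ => ?_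
  rw [E_congr hfh i hx, E_congr hfh j hx]

theorem glen_nonneg (g : MF) (c : ℝ → HH) : 0 ≤ glen g c := by
  unfold glen
  exact intervalIntegral.integral_nonneg (by norm_num) fun t _ => Real.sqrt_nonneg _

theorem gdist_self (g : MF) {x : HH} (hx : ‖x‖ = 1) : gdist g x x ≤ 0 := by
  unfold gdist
  refine csInf_le ⟨0, ?_⟩ ⟨fun _ => x, ⟨⟨0, LipschitzWith.const x⟩, fun _ => hx, rfl, rfl⟩, ?_⟩
  · rintro r ⟨c, _, rfl⟩
    exact glen_nonneg g c
  · have h0 : ∀ i, fr x (0 : HH) i = 0 := by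
      intro i
      fin_cases i <;> simp [fr] <;> rfl
    unfold glen speed
    simp [ip, h0]

/-- the time integral estimate -/
theorem diff_le {τ C : ℝ} (hτ : 0 < τ) (hC : 0 ≤ C) {φ φ' : ℝ → ℝ}
    (hd : ∀ t ∈ Set.Icc 0 τ, HasDerivWithinAt φ (φ' t) (Set.Icc 0 τ) t)
    (hb : ∀ t, 0 < t → t < τ → t * φ' t ^ 2 ≤ C ^ 2) :
    φ 0 ≤ 2 * C * Real.sqrt τ + φ τ := by
  have hmono : MonotoneOn (fun t => 2 * C * Real.sqrt t + φ t) (Set.Icc 0 τ) := by
    refine monotoneOn_of_deriv_nonneg (convex_Icc 0 τ) ?_ ?_ ?_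
    · exact (Real.continuous_sqrt.continuousOn.const_smul (2 * C)).add
        (fun t ht => (hd t ht).continuousWithinAt)
    · intro t ht
      rw [interior_Icc] at ht
      have h1 := (hd t ⟨ht.1.le, ht.2.le⟩).hasDerivAt (Icc_mem_nhds ht.1 ht.2)
      exact (((Real.hasDerivAt_sqrt ht.1.ne').const_mul (2 * C)).add h1).differentiableAt
        |>.differentiableWithinAt
    · intro t ht
      rw [interior_Icc] at ht
      have h1 := (hd t ⟨ht.1.le, ht.2.le⟩).hasDerivAt (Icc_mem_nhds ht.1 ht.2)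
      have h2 := ((Real.hasDerivAt_sqrt ht.1.ne').const_mul (2 * C)).add h1
      have h3 : deriv (fun t => 2 * C * Real.sqrt t + φ t) t
          = 2 * C * (1 / (2 * Real.sqrt t)) + φ' t := h2.deriv
      rw [h3]
      have hs : 0 < Real.sqrt t := Real.sqrt_pos.2 ht.1
      have h4 : (Real.sqrt t * φ' t) ^ 2 ≤ C ^ 2 := by
        rw [mul_pow, Real.sq_sqrt ht.1.le]; exact hb t ht.1 ht.2
      have h5 : -C ≤ Real.sqrt t * φ' t := (abs_le.1 (abs_le_of_sq_le_sq h4 hC)).1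
      have h6 : 2 * C * (1 / (2 * Real.sqrt t)) + φ' t
          = (C + Real.sqrt t * φ' t) / Real.sqrt t := by
        field_simp
      rw [h6]
      exact div_nonneg (by linarith) hs.le
  have := hmono (Set.left_mem_Icc.2 hτ.le) (Set.right_mem_Icc.2 hτ.le) hτ.le
  simpa using this

theorem dia (hHEC : HecStmt) (hLIP : LipStmt) (hSMO : SmoStmt) (hFRN : FrnStmt) : DiaStmt := by
  intro hHeat T κ A0 τ A θ hκ hτ hτT hF hpin hA0 hdis
  have hF1 : FFlow (Set.Icc 0 τ) A θ :=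
    fflow_mono (fun t ht => show t ∈ Set.Ico 0 T from ⟨ht.1, ht.2.trans_lt hτT⟩) hF
  have hF2 : FFlow (Set.Ico 0 τ) A θ :=
    fflow_mono (fun t ht => show t ∈ Set.Icc 0 τ from ⟨ht.1, ht.2.le⟩) hF1
  set C := Real.sqrt (2 + 5 * A0) with hCdef
  have hC0 : 0 ≤ C := Real.sqrt_nonneg _
  -- the main estimate for smooth functions
  have key : ∀ f : HH → ℝ, Sm f → (∀ x, x ≠ 0 → ggC (gOf (θ 0)) f f x ≤ 1) →
      ∀ x y : HH, ‖x‖ = 1 → ‖y‖ = 1 → f x - f y ≤ (11 + 4 * C) * Real.sqrt τ := by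
    intro f hf hgf x y hx hy
    obtain ⟨u, hu, hu0⟩ := hHeat τ A θ hτ hF1 f hf
    have hu2 : HeatOn (Set.Ico 0 τ) (fun t => gOf (θ t)) u :=
      smFam1_mono (fun t ht => show t ∈ Set.Icc 0 τ from ⟨ht.1, ht.2.le⟩) hu
    have hH := hHEC τ κ A0 A θ u hτ hκ hF2 (fun t ht0 ht1 x hx =>
      ⟨(hpin t ht0.le (ht1.trans hτT) x hx).1, (hpin t ht0.le (ht1.trans hτT) x hx).2,
        hA0 t ht0 ht1.le x hx⟩) hu2 (fun x hx => by
          rw [ggC_congr hu0 hx]; exact hgf x hx)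
    have hne : ∀ z : HH, ‖z‖ = 1 → z ≠ 0 := by
      intro z hz h0; rw [h0] at hz; simp at hz
    have hC2 : C ^ 2 = 2 + 5 * A0 := by
      refine Real.sq_sqrt ?_
      have h1 := (hH (τ / 2) (by linarith) (by linarith) x (hne x hx)).2
      have h2 : 0 ≤ τ / 2 * LapC (gOf (θ (τ / 2))) (u (τ / 2)) x ^ 2 := by positivity
      linarith
    -- time estimate
    have hder : ∀ z : HH, z ≠ 0 → ∀ t ∈ Set.Icc 0 τ,
        HasDerivWithinAt (fun s => u s z) (LapC (gOf (θ t)) (u t) z) (Set.Icc 0 τ) t :=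
      fun z hz t ht => hu.der [] z hz t ht
    have e1 : f x ≤ 2 * C * Real.sqrt τ + u τ x := by
      have := diff_le (φ := fun s => u s x) (φ' := fun t => LapC (gOf (θ t)) (u t) x) hτ hC0
        (hder x (hne x hx)) (fun t h1 h2 => by rw [hC2]; exact (hH t h1 h2 x (hne x hx)).2)
      simpa [hu0 x (hne x hx)] using this
    have e2 : -f y ≤ 2 * C * Real.sqrt τ + -u τ y := by
      have := diff_le (φ := fun s => -u s y) (φ' := fun t => -LapC (gOf (θ t)) (u t) y) hτ hC0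
        (fun t ht => (hder y (hne y hy) t ht).neg)
        (fun t h1 h2 => by rw [hC2, neg_sq]; exact (hH t h1 h2 y (hne y hy)).2)
      simpa [hu0 y (hne y hy)] using this
    -- gradient at time `τ`
    have hgrad : ∀ z, z ≠ 0 → ggC (gOf (θ τ)) (u τ) (u τ) z ≤ (1 : ℝ) ^ 2 := by
      intro z hz
      rw [one_pow]
      have hcl : closure (Set.Ioo (0 : ℝ) τ) = Set.Icc 0 τ := closure_Ioo hτ.ne
      have hform : ∀ t ∈ Set.Icc 0 τ, ggC (gOf (θ t)) (u t) (u t) z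
          = ∑ a, (∑ i, A t z a i * E i (u t) z) * ∑ i, A t z a i * E i (u t) z :=
        fun t ht => (hFRN (A t) (θ t) (fflow_frm hF1 ht)).2.2.2.2.2.2.2 (u t) (u t) z
      have hcA : ∀ a i, ContinuousOn (fun t => A t z a i) (Set.Icc 0 τ) := by
        intro a i
        have h1 := (hF1.flA a i).fam.cont []
        exact h1.comp (f := fun t : ℝ => (t, z)) (by fun_prop)
          (fun t ht => ⟨ht, hz⟩)
      have hcE : ∀ i, ContinuousOn (fun t => E i (u t) z) (Set.Icc 0 τ) := by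
        intro i
        have h1 := hu.fam.cont [i]
        exact h1.comp (f := fun t : ℝ => (t, z)) (by fun_prop)
          (fun t ht => ⟨ht, hz⟩)
      have hcont : ContinuousOn (fun t => ggC (gOf (θ t)) (u t) (u t) z) (Set.Icc 0 τ) := by
        refine ContinuousOn.congr ?_ hform
        have h1 : ∀ a, ContinuousOn (fun t => ∑ i, A t z a i * E i (u t) z) (Set.Icc 0 τ) :=
          fun a => continuousOn_finsetSum _ fun i _ => (hcA a i).mul (hcE i)
        exact continuousOn_finsetSum _ fun a _ => (h1 a).mul (h1 a)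
      refine le_on_closure (s := Set.Ioo (0 : ℝ) τ) (f := fun t => ggC (gOf (θ t)) (u t) (u t) z)
        (g := fun _ => (1 : ℝ)) (fun t ht => (hH t ht.1 ht.2 z hz).1) (by rw [hcl]; exact hcont)
        (by fun_prop) (x := τ) (by rw [hcl]; exact Set.right_mem_Icc.2 hτ.le)
    have hτI : τ ∈ Set.Icc 0 τ := Set.right_mem_Icc.2 hτ.le
    have e3 := hLIP (gOf (θ τ)) (u τ) 1 (hFRN (A τ) (θ τ) (fflow_frm hF1 hτI)).1
      (hu.fam.sm τ hτI) zero_le_one hgrad x y hx hy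
    have e4 := (abs_le.1 e3).2
    have e5 := hdis x y hx hy
    linarith
  -- conclusion
  have h0I : (0 : ℝ) ∈ Set.Icc 0 τ := Set.left_mem_Icc.2 hτ.le
  have hm := (hFRN (A 0) (θ 0) (fflow_frm hF1 h0I)).1
  unfold gdiam
  refine csSup_le ⟨_, 1, 1, norm_one, norm_one, rfl⟩ ?_
  rintro r ⟨x, y, hx, hy, rfl⟩
  refine le_of_forall_pos_le_add fun ε hε => ?_
  obtain ⟨f, hf, hgf, hfd⟩ := hSMO (gOf (θ 0)) x (ε / 2) hm hx (by positivity)
  have h1 := key f hf hgf y x hy hx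
  have h2 := abs_le.1 (hfd y hy)
  have h3 := abs_le.1 (hfd x hx)
  have h4 := gdist_self (gOf (θ 0)) hx
  linarith [h2.1, h3.2]

end Pool.Agent.Helper29.RF
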