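import Pool.Agent.Helper73.RF.GoalsE

/-!
# Project RF, packet FRN: one fixed time
-/

set_option autoImplicit false
set_option linter.unusedSectionVars false

open Finset Pool.Agent.Helper47.RF Pool.Agent.Helper73.RF

namespace Pool.Agent.Helper29.RF

/-- the two symbols agree -/
theorem eps_eq (i j k : Fin 3) :
    Pool.Agent.Helper47.RF.eps i j k = Pool.Agent.Helper73.RF.eps i j k := by
  fin_cases i <;> fin_cases j <;> fin_cases k <;>
    simp [Pool.Agent.Helper47.RF.eps, Pool.Agent.Helper73.RF.eps] <;> norm_num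

theorem js_const {f : HH → ℝ} (hf : Sm f) : JS 1 (fun _ => f) := by
  refine ⟨?_, fun t _ _ => hf.hom⟩
  exact hf.cd.comp contDiff_fst.contDiffOn (fun p hp => hp.1)

/-- `X` is represented by the function `f` -/
def Rep (X : (baC 1).B) (f : HH → ℝ) : Prop :=
  ∀ (z : (baC 1).Z) (t : TI 1), (baC 1).ev z t X = f (Prod.fst z : Metric.sphere (0 : HH) 1)

theorem Rep.add {X Y : (baC 1).B} {f g : HH → ℝ} (h1 : Rep X f) (h2 : Rep Y g) :
    Rep (X + Y) (fun x => f x + g x) := by
  intro z t; rw [map_add, h1, h2]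

theorem Rep.sub {X Y : (baC 1).B} {f g : HH → ℝ} (h1 : Rep X f) (h2 : Rep Y g) :
    Rep (X - Y) (fun x => f x - g x) := by
  intro z t; rw [map_sub, h1, h2]

theorem Rep.mul {X Y : (baC 1).B} {f g : HH → ℝ} (h1 : Rep X f) (h2 : Rep Y g) :
    Rep (X * Y) (fun x => f x * g x) := by
  intro z t; rw [map_mul, h1, h2]

theorem Rep.smul {X : (baC 1).B} {f : HH → ℝ} (c : ℝ) (h1 : Rep X f) :
    Rep (c • X) (fun x => c * f x) := by
  intro z t; rw [map_smul, h1, smul_eq_mul]

theorem Rep.sum {ι : Type} (s : Finset ι) {X : ι → (baC 1).B} {f : ι → HH → ℝ}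
    (h : ∀ i, Rep (X i) (f i)) : Rep (∑ i ∈ s, X i) (fun x => ∑ i ∈ s, f i x) := by
  intro z t; rw [map_sum]; exact Finset.sum_congr rfl fun i _ => h i z t

theorem Rep.congr {X : (baC 1).B} {f g : HH → ℝ} (h1 : Rep X f) (h : ∀ x, f x = g x) :
    Rep X g := by
  intro z t; rw [h1, h]

theorem Rep.E (hD : DaxStmt) (h6 : D6Stmt) {X : (baC 1).B} {f : HH → ℝ} (hf : Sm f)
    (h1 : Rep X f) (i : Fin 3) :
    Rep ((baC 1).E i X) (Pool.Agent.Helper47.RF.E i f) := by
  have h := (h6 1).1
  have hX : X = emb (fun _ => f) (js_const hf) := by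
    apply (hD 1).ext
    intro z t
    rw [h1, (h _ (js_const hf)).1]
  intro z t
  obtain ⟨hE, h2⟩ := (h _ (js_const hf)).2.2.1 i
  rw [hX, h2, (h _ hE).1]

theorem Rep.sm_unit {f : HH → ℝ} (hf : Hom0 f) (h : ∀ x : HH, ‖x‖ = 1 → f x = 0) :
    ∀ x : HH, x ≠ 0 → f x = 0 := by
  intro x hx
  have hn : 0 < ‖x‖ := norm_pos_iff.2 hx
  have h1 := h (‖x‖⁻¹ • x) (by
    rw [norm_smul, norm_inv, norm_norm, inv_mul_cancel₀ hn.ne'])
  rw [hf _ _ (inv_pos.2 hn)] at h1
  exact h1

section

variable {A θ : MF}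

theorem tA (hF : Frm A θ) (x : HH) : θ x * A x = 1 := mul_eq_one_comm.1 (hF.inv x)

theorem gOf_apply (x : HH) (i j : Fin 3) : gOf θ x i j = ∑ a, θ x i a * θ x j a := by
  simp [gOf, Matrix.mul_apply]

theorem gOf_inv (hF : Frm A θ) (x : HH) : (gOf θ x)⁻¹ = (A x).transpose * A x := by
  apply Matrix.inv_eq_right_inv
  unfold gOf
  rw [Matrix.mul_assoc, ← Matrix.mul_assoc (θ x).transpose, ← Matrix.transpose_mul, hF.inv,
    Matrix.transpose_one, Matrix.one_mul, tA hF]

theorem gOf_inv_apply (hF : Frm A θ) (x : HH) (i j : Fin 3) :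
    (gOf θ x)⁻¹ i j = ∑ a, A x a i * A x a j := by
  rw [gOf_inv hF, Matrix.mul_apply]
  rfl

theorem gOf_pos (hF : Frm A θ) (x : HH) : (gOf θ x).PosDef := by
  have h : IsUnit (θ x) := IsUnit.of_mul_eq_one _ (tA hF x)
  have h2 : Function.Injective (Matrix.vecMul · (θ x)) := by
    intro v w hvw
    have := congrArg (fun u => Matrix.vecMul u (A x)) hvw
    simpa [Matrix.vecMul_vecMul, tA hF x] using this
  have := Matrix.PosDef.mul_conjTranspose_self (θ x) h2
  simpa [gOf, Matrix.conjTranspose_eq_transpose_of_trivial] using this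

end

section

variable (hC : Goal_C1)
include hC

theorem smC (c : ℝ) : Sm (fun _ => c) := hC.1 c
theorem smAdd {f h : HH → ℝ} (hf : Sm f) (hh : Sm h) : Sm (fun x => f x + h x) :=
  hC.2.1 f h hf hh
theorem smSub {f h : HH → ℝ} (hf : Sm f) (hh : Sm h) : Sm (fun x => f x - h x) :=
  hC.2.2.1 f h hf hh
theorem smMul {f h : HH → ℝ} (hf : Sm f) (hh : Sm h) : Sm (fun x => f x * h x) :=
  hC.2.2.2.1 f h hf hh
theorem smNeg {f : HH → ℝ} (hf : Sm f) : Sm (fun x => -f x) :=
  hC.2.2.2.2.1 f hf
theorem smSum {ι : Type} (s : Finset ι) {f : ι → HH → ℝ} (hf : ∀ a, Sm (f a)) :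
    Sm (fun x => ∑ a ∈ s, f a x) :=
  hC.2.2.2.2.2.1 ι s f (fun a _ => hf a)
theorem smE (i : Fin 3) {f : HH → ℝ} (hf : Sm f) : Sm (E i f) :=
  hC.2.2.2.2.2.2.2.1 f i hf
theorem smCmul (c : ℝ) {f : HH → ℝ} (hf : Sm f) : Sm (fun x => c * f x) :=
  smMul hC (smC hC c) hf

variable {A θ : MF} (hF : Frm A θ)
include hF

theorem sm_g (i j : Fin 3) : Sm (fun x => gOf θ x i j) := by
  have h : (fun x => gOf θ x i j) = fun x => ∑ a, θ x i a * θ x j a := by
    funext x; exact gOf_apply x i j
  rw [h]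
  exact smSum hC _ fun a => smMul hC (hF.smt i a) (hF.smt j a)

theorem sm_gi (i j : Fin 3) : Sm (fun x => (gOf θ x)⁻¹ i j) := by
  have h : (fun x => (gOf θ x)⁻¹ i j) = fun x => ∑ a, A x a i * A x a j := by
    funext x; exact gOf_inv_apply hF x i j
  rw [h]
  exact smSum hC _ fun a => smMul hC (hF.smA a i) (hF.smA a j)

theorem sm_GamL (i j k : Fin 3) : Sm (GamL (gOf θ) i j k) := by
  have h : GamL (gOf θ) i j k = fun x => (1 / 2 : ℝ) *
      (E i (fun y => gOf θ y j k) x + E j (fun y => gOf θ y i k) x - E k (fun y => gOf θ y i j) x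
    + 2 * ∑ l, (Pool.Agent.Helper47.RF.eps i j l * gOf θ x l k
      - Pool.Agent.Helper47.RF.eps i k l * gOf θ x l j
      - Pool.Agent.Helper47.RF.eps j k l * gOf θ x l i)) := by
    funext x; unfold GamL; ring
  rw [h]
  have hg := sm_g hC hF
  refine smCmul hC _ (smAdd hC (smSub hC (smAdd hC (smE hC i (hg j k)) (smE hC j (hg i k)))
    (smE hC k (hg i j))) (smCmul hC _ (smSum hC _ fun l => ?_)))
  exact smSub hC (smSub hC (smCmul hC _ (hg l k)) (smCmul hC _ (hg l j))) (smCmul hC _ (hg l i))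

theorem sm_Gam (i j k : Fin 3) : Sm (Gam (gOf θ) i j k) :=
  smSum hC univ fun m => smMul hC (sm_gi hC hF k m) (sm_GamL hC hF i j m)

theorem sm_Rup (i j k l : Fin 3) : Sm (Rup (gOf θ) i j k l) := by
  have hG := sm_Gam hC hF
  refine smSub hC (smAdd hC (smSub hC (smE hC i (hG j k l)) (smE hC j (hG i k l)))
    (smSum hC univ fun m => ?_)) (smCmul hC _ (smSum hC univ fun m => ?_))
  · exact smSub hC (smMul hC (hG j k m) (hG i m l)) (smMul hC (hG i k m) (hG j m l))
  · exact smCmul hC _ (hG m k l)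

theorem sm_Rm (i j k l : Fin 3) : Sm (Rm (gOf θ) i j k l) :=
  smSum hC univ fun m => smMul hC (sm_Rup hC hF i j k m) (sm_g hC hF m l)

theorem sm_Ric (i j : Fin 3) : Sm (Ric (gOf θ) i j) :=
  smSum hC univ fun m => sm_Rup hC hF m i j m

theorem sm_Nc (l k : Fin 3) : Sm (fun x => Nc A θ x l k) := by
  refine smCmul hC _ (smSum hC univ fun c => smSum hC univ fun d => smSum hC univ fun b =>
    smSum hC univ fun f => smCmul hC _ (smSum hC univ fun i => smSum hC univ fun j =>
    smSum hC univ fun p => smSum hC univ fun r => ?_))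
  exact smMul hC (smMul hC (smMul hC (smMul hC (sm_Rm hC hF i j p r) (hF.smA c i)) (hF.smA d j))
    (hF.smA b p)) (hF.smA f r)

theorem sm_sC : Sm (sC A θ) := smSum hC univ fun i => sm_Nc hC hF i i

theorem sm_RicF (a b : Fin 3) : Sm (fun x => RicF A θ x a b) :=
  smSum hC univ fun i => smSum hC univ fun j =>
    smMul hC (smMul hC (hF.smA a i) (hF.smA b j)) (sm_Ric hC hF i j)

end

section

variable {A θ : MF}

theorem jmc {A : MF} (h : ∀ i j, Sm (fun x => A x i j)) : JM 1 (fun _ => A) :=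
  fun i j => js_const (h i j)

theorem rep_emb (h6 : D6Stmt) {B : MF} (h : ∀ i j, Sm (fun x => B x i j)) (i j : Fin 3) :
    Rep (embM (jmc h) i j) (fun x => B x i j) := by
  intro z t
  exact ((h6 1).1 _ (jmc h i j)).1 z t

variable (hF : Frm A θ) (hC : Goal_C1) (hD : DaxStmt) (h6 : D6Stmt)
include hF hC hD h6

theorem frameHyp : FrameHyp (baC 1).E (embM (jmc hF.smA)) (embM (jmc hF.smt)) := by
  have hAx := hD 1
  refine ⟨hAx.EE, ?_, ?_⟩
  · intro a b
    apply hAx.ext
    intro z t
    rw [map_sum]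
    have h1 : ∀ i, (baC 1).ev z t (embM (jmc hF.smA) a i * embM (jmc hF.smt) i b)
        = A (Prod.fst z : Metric.sphere (0 : HH) 1) a i
          * θ (Prod.fst z : Metric.sphere (0 : HH) 1) i b := by
      intro i
      rw [map_mul, rep_emb h6 hF.smA a i z t, rep_emb h6 hF.smt i b z t]
    rw [Finset.sum_congr rfl fun i _ => h1 i, ← Matrix.mul_apply, hF.inv, Matrix.one_apply]
    split_ifs <;> simp
  · intro a b
    apply hAx.ext
    intro z t
    rw [map_sum]
    have h1 : ∀ i, (baC 1).ev z t (embM (jmc hF.smt) a i * embM (jmc hF.smA) i b)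
        = θ (Prod.fst z : Metric.sphere (0 : HH) 1) a i
          * A (Prod.fst z : Metric.sphere (0 : HH) 1) i b := by
      intro i
      rw [map_mul, rep_emb h6 hF.smA i b z t, rep_emb h6 hF.smt a i z t]
    rw [Finset.sum_congr rfl fun i _ => h1 i, ← Matrix.mul_apply, tA hF, Matrix.one_apply]
    split_ifs <;> simp

theorem rep_g (i j : Fin 3) : Rep (FR.g (embM (jmc hF.smt)) i j) (fun x => gOf θ x i j) :=
  (Rep.sum univ fun a => (rep_emb h6 hF.smt i a).mul (rep_emb h6 hF.smt j a)).congr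
    fun x => (gOf_apply x i j).symm

theorem rep_gi (i j : Fin 3) : Rep (FR.gi (embM (jmc hF.smA)) i j) (fun x => (gOf θ x)⁻¹ i j) :=
  (Rep.sum univ fun a => (rep_emb h6 hF.smA a i).mul (rep_emb h6 hF.smA a j)).congr
    fun x => (gOf_inv_apply hF x i j).symm

theorem rep_KL (i j k : Fin 3) :
    Rep (FR.KL (baC 1).E (embM (jmc hF.smt)) i j k) (GamL (gOf θ) i j k) := by
  have hg := rep_g hF hC hD h6
  have sg := sm_g hC hF
  refine Rep.congr (Rep.smul _ (((((hg j k).E hD h6 (sg j k) i).add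
    ((hg i k).E hD h6 (sg i k) j)).sub ((hg i j).E hD h6 (sg i j) k)).add
    (Rep.smul _ (Rep.sum univ fun l => (((hg l k).smul _).sub ((hg l j).smul _)).sub
      ((hg l i).smul _))))) ?_
  intro x
  unfold GamL
  simp only [eps_eq]
  ring

theorem rep_KE (i j k : Fin 3) :
    Rep (FR.KE (baC 1).E (embM (jmc hF.smA)) (embM (jmc hF.smt)) i j k) (Gam (gOf θ) i j k) :=
  Rep.sum univ fun m => (rep_gi hF hC hD h6 k m).mul (rep_KL hF hC hD h6 i j m)

theorem rep_RE (i j k l : Fin 3) :
    Rep (FR.RE (baC 1).E (embM (jmc hF.smA)) (embM (jmc hF.smt)) i j k l)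
      (Rup (gOf θ) i j k l) := by
  have hK := rep_KE hF hC hD h6
  have sK := sm_Gam hC hF
  refine Rep.congr ((((hK j k l).E hD h6 (sK j k l) i).sub ((hK i k l).E hD h6 (sK i k l) j)).add
    (Rep.sum univ fun m => ((hK j k m).mul (hK i m l)).sub ((hK i k m).mul (hK j m l))) |>.sub
    (Rep.smul _ (Rep.sum univ fun m => (hK m k l).smul _))) ?_
  intro x
  unfold Rup
  simp only [eps_eq]

theorem ind_E : ∀ a : Fin 3 → (baC 1).B, (∀ f, ∑ i, a i * (baC 1).E i f = 0) → ∀ i, a i = 0 := by
  have hAx := hD 1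
  intro a ha
  have key : ∀ d f : Fin 3, ∑ i, (Pool.Agent.Helper73.RF.eps i d f) • a i = 0 := by
    intro d f
    have h1 : ∀ c, ∑ i, a i * ((2 : ℝ) • ∑ e, Pool.Agent.Helper73.RF.eps i d e • (baC 1).X c e)
        * (baC 1).X c f = 0 := by
      intro c
      have := ha ((baC 1).X c d)
      simp only [hAx.EX] at this
      rw [← Finset.sum_mul, this, zero_mul]
    have h2 := Finset.sum_congr (rfl : (univ : Finset (Fin 3)) = univ) fun c _ => h1 c
    rw [Finset.sum_const_zero, Finset.sum_comm] at h2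
    have h3 : ∀ i, ∑ c, a i * ((2 : ℝ) • ∑ e, Pool.Agent.Helper73.RF.eps i d e • (baC 1).X c e)
        * (baC 1).X c f = (2 * Pool.Agent.Helper73.RF.eps i d f) • a i := by
      intro i
      have h4 : ∀ c, a i * ((2 : ℝ) • ∑ e, Pool.Agent.Helper73.RF.eps i d e • (baC 1).X c e)
        * (baC 1).X c f = ∑ e, (2 * Pool.Agent.Helper73.RF.eps i d e) •
          (a i * ((baC 1).X c e * (baC 1).X c f)) := by
        intro c
        rw [mul_smul_comm, smul_mul_assoc, Finset.mul_sum, Finset.sum_mul, Finset.smul_sum]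
        refine Finset.sum_congr rfl fun e _ => ?_
        rw [mul_smul_comm, smul_mul_assoc, smul_smul, mul_assoc]
      rw [Finset.sum_congr rfl fun c _ => h4 c, Finset.sum_comm]
      have h5 : ∀ e, ∑ c, (2 * Pool.Agent.Helper73.RF.eps i d e) •
          (a i * ((baC 1).X c e * (baC 1).X c f))
          = (2 * Pool.Agent.Helper73.RF.eps i d e) • (a i * if e = f then 1 else 0) := by
        intro e
        rw [← Finset.smul_sum, ← Finset.mul_sum, hAx.XtX]
      rw [Finset.sum_congr rfl fun e _ => h5 e]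
      rw [Finset.sum_eq_single f]
      · simp
      · intro e _ he; simp [he]
      · intro h; exact absurd (Finset.mem_univ f) h
    rw [Finset.sum_congr rfl fun i _ => h3 i] at h2
    have h6 : (2 : ℝ) • ∑ i, (Pool.Agent.Helper73.RF.eps i d f) • a i = 0 := by
      rw [Finset.smul_sum, ← h2]
      exact Finset.sum_congr rfl fun i _ => smul_smul _ _ _
    have := congrArg (fun y => (1 / 2 : ℝ) • y) h6
    simpa [smul_smul] using this
  intro i
  fin_cases i
  · have := key 1 2
    simpa [Fin.sum_univ_three, Pool.Agent.Helper73.RF.eps] using this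
  · have := key 2 0
    simpa [Fin.sum_univ_three, Pool.Agent.Helper73.RF.eps] using this
  · have := key 0 1
    simpa [Fin.sum_univ_three, Pool.Agent.Helper73.RF.eps] using this

end

/-- two functions representing the same element agree off `0` -/
theorem rep_unique {X Y : (baC 1).B} {f g : HH → ℝ} (h1 : Rep X f) (h2 : Rep Y g) (hXY : X = Y)
    (hf : Hom0 f) (hg : Hom0 g) : ∀ x : HH, x ≠ 0 → f x = g x := by
  intro x hx
  have h := Rep.sm_unit (f := fun x => f x - g x)
    (fun r x hr => by simp only [hf r x hr, hg r x hr]) (fun x hx1 => by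
      let t : TI 1 := ⟨1 / 2, by norm_num, by norm_num⟩
      let z : (baC 1).Z := (⟨x, by simp [hx1]⟩, ⟨1, by simp⟩)
      have e1 := h1 z t
      have e2 := h2 z t
      rw [hXY] at e1
      have e3 := e1.symm.trans e2
      exact sub_eq_zero.2 e3) x hx
  exact sub_eq_zero.1 h

theorem frn (hL : LnkStmt) (hG : GeoStmt) (h6 : D6Stmt) (hD : DaxStmt) (hN : NsyStmt)
    (hC : Goal_C1) : FrnStmt := by
  intro A θ hF
  have hFH := frameHyp hF hC hD h6
  have hLnk := fun z t => hL 1 (fun _ => A) (fun _ => θ) (jmc hF.smA) (jmc hF.smt)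
    (fun t _ _ x => hF.inv x) z t
  have repN : ∀ l k, Rep (FR.N (baC 1).E (embM (jmc hF.smA)) (embM (jmc hF.smt)) l k)
      (fun x => Nc A θ x l k) := fun l k z t => (hLnk z t).1 l k
  have repR : ∀ a b, Rep (FR.Ricf (baC 1).E (embM (jmc hF.smA)) (embM (jmc hF.smt)) a b)
      (fun x => RicF A θ x a b) := fun a b z t => (hLnk z t).2 a b
  have sN := sm_Nc hC hF
  refine ⟨⟨sm_g hC hF, gOf_pos hF⟩, gOf_inv hF, sN, ?_, ?_, ?_, ?_, ?_⟩
  · intro x hx l k
    exact rep_unique (repN l k) (repN k l)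
      (hN _ _ _ _ hFH (ind_E hF hC hD h6) l k) (sN l k).hom (sN k l).hom x hx
  · intro x hx c d b f
    have h1 := (hG _ _ _ _ hFH).2.1 c d b f
    have hA := rep_emb h6 hF.smA
    have hRE := rep_RE hF hC hD h6
    have hg := rep_g hF hC hD h6
    have hl := Rep.sum (univ : Finset (Fin 3)) fun i => Rep.sum (univ : Finset (Fin 3)) fun j =>
      Rep.sum (univ : Finset (Fin 3)) fun k => Rep.sum (univ : Finset (Fin 3)) fun l =>
        (((((hA c i).mul (hA d j)).mul (hA b k)).mul (hA f l)).mul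
          (Rep.sum (univ : Finset (Fin 3)) fun m => (hRE i j k m).mul (hg m l)))
    have hr := Rep.smul (-1) (Rep.sum (univ : Finset (Fin 3)) fun k =>
      Rep.sum (univ : Finset (Fin 3)) fun l =>
        (repN l k).smul (Pool.Agent.Helper73.RF.eps c d l * Pool.Agent.Helper73.RF.eps k b f))
    have sRm := sm_Rm hC hF
    have h2 := rep_unique hl hr (by rw [h1]; simp) (Sm.hom (smSum hC univ fun i =>
      smSum hC univ fun j => smSum hC univ fun k => smSum hC univ fun l =>
      smMul hC (smMul hC (smMul hC (smMul hC (hF.smA c i) (hF.smA d j)) (hF.smA b k))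
        (hF.smA f l)) (sRm i j k l))) (Sm.hom (smCmul hC _ (smSum hC univ fun k =>
        smSum hC univ fun l => smCmul hC _ (sN l k)))) x hx
    calc _ = ∑ i, ∑ j, ∑ k, ∑ l, A x c i * A x d j * A x b k * A x f l *
          ∑ m, Rup (gOf θ) i j k m x * gOf θ x m l := by
          refine Finset.sum_congr rfl fun i _ => Finset.sum_congr rfl fun j _ =>
            Finset.sum_congr rfl fun k _ => Finset.sum_congr rfl fun l _ => ?_
          unfold Rm
          ring
      _ = _ := h2
      _ = _ := by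
          rw [Finset.sum_comm, neg_one_mul]
          congr 1
          refine Finset.sum_congr rfl fun k _ => Finset.sum_congr rfl fun l _ => ?_
          ring
  · intro x hx a b
    have hr : Rep (FR.Ricf (baC 1).E (embM (jmc hF.smA)) (embM (jmc hF.smt)) a b)
        (fun x => (if a = b then sC A θ x else 0) - Nc A θ x a b) := by
      intro z t
      unfold FR.Ricf
      rw [map_sub, repN]
      congr 1
      split_ifs
      · exact (Rep.sum univ fun i => repN i i) z t
      · exact map_zero _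
    refine rep_unique (repR a b) hr rfl (sm_RicF hC hF a b).hom ?_ x hx
    intro r y hr'
    have h1 := (sN a b).hom r y hr'
    have h2 := (sm_sC hC hF).hom r y hr'
    simp only [h1, h2]
  · intro x a b
    have h1 : ip (gOf θ) x (A x a) (A x b) = (A x * gOf θ x * (A x).transpose) a b := by
      simp only [ip, Matrix.mul_apply, Matrix.transpose_apply, Finset.sum_mul]
      rw [Finset.sum_comm]
      refine Finset.sum_congr rfl fun i _ => Finset.sum_congr rfl fun j _ => ?_
      ring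
    have h2 : A x * gOf θ x * (A x).transpose = 1 := by
      unfold gOf
      rw [← Matrix.mul_assoc, hF.inv, Matrix.one_mul, ← Matrix.transpose_mul, hF.inv,
        Matrix.transpose_one]
    rw [h1, h2, Matrix.one_apply]
  · intro u v x
    unfold ggC
    simp only [gOf_inv_apply hF]
    have h1 : ∀ a, (∑ i, A x a i * E i u x) * ∑ i, A x a i * E i v x
        = ∑ i, ∑ j, (A x a i * A x a j) * E i u x * E j v x := by
      intro a
      rw [Finset.sum_mul_sum]
      refine Finset.sum_congr rfl fun i _ => Finset.sum_congr rfl fun j _ => ?_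
      ring
    rw [Finset.sum_congr rfl fun a _ => h1 a]
    have h2 : ∑ a, ∑ i, ∑ j, (A x a i * A x a j) * E i u x * E j v x
        = ∑ i, ∑ a, ∑ j, (A x a i * A x a j) * E i u x * E j v x := Finset.sum_comm
    rw [h2]
    refine Finset.sum_congr rfl fun i _ => ?_
    have h3 : ∑ a, ∑ j, (A x a i * A x a j) * E i u x * E j v x
        = ∑ j, ∑ a, (A x a i * A x a j) * E i u x * E j v x := Finset.sum_comm
    rw [h3]
    refine Finset.sum_congr rfl fun j _ => ?_
    rw [Finset.sum_mul, Finset.sum_mul]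

end Pool.Agent.Helper29.RF
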